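import Pool.Agent.X248.OHF.Hole

/-!
# Colourings and exact covers
-/

set_option autoImplicit false

namespace Pool.Agent.X248.OHF

open Pool.Agent.NPC Pool.Agent.H622R2 Pool.Agent.NPC.H632

theorem mem_el_cmp {S : List (ℕ × ℕ × ℕ)} {t x : ℕ} :
    x ∈ el (S.getD t (0, 0, 0)) ↔ ∃ i < 3, cmp S t i = x := by
  constructor
  · intro h
    simp only [el, List.mem_cons, List.not_mem_nil, or_false] at h
    rcases h with h | h | h
    · exact ⟨0, by omega, by simp [cmp, h]⟩
    · exact ⟨1, by omega, by simp [cmp, h]⟩
    · exact ⟨2, by omega, by simp [cmp, h]⟩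
  · rintro ⟨i, hi, h⟩
    have hi' : i = 0 ∨ i = 1 ∨ i = 2 := by omega
    simp only [el, List.mem_cons, List.not_mem_nil, or_false]
    rcases hi' with rfl | rfl | rfl
    · left; simpa [cmp] using h.symm
    · right; left; simpa [cmp] using h.symm
    · right; right; simpa [cmp] using h.symm

section Forward

variable {I : List (ℕ × ℕ × ℕ) × ℕ} {C : List (ℕ × ℕ × ℕ)}

/-- The positions of the triples in the cover. -/
def Chosen (I : List (ℕ × ℕ × ℕ) × ℕ) (C : List (ℕ × ℕ × ℕ)) (p : ℕ) : Prop :=
  I.1.getD p (0, 0, 0) ∈ C ∧ I.1.idxOf (I.1.getD p (0, 0, 0)) = p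

open Classical in
/-- From an exact cover to a colouring. -/
theorem colorable_of_cover (hsub : ∀ t ∈ C, t ∈ I.1)
    (hp : (C.flatMap el).Perm (List.range (3 * I.2))) :
    (GG I).Colorable (I.2 + 2 * I.1.length) := by
  classical
  have hlen := X3C_length hp
  -- the place of an element
  have hpl : ∀ e < 3 * I.2, ∃ p i, p < I.1.length ∧ i < 3 ∧ Chosen I C p ∧ cmp I.1 p i = e := by
    intro e he
    obtain ⟨t, ht, het⟩ := List.mem_flatMap.1 (hp.mem_iff.2 (List.mem_range.2 he))
    have h1 : I.1.idxOf t < I.1.length := List.idxOf_lt_length_iff.2 (hsub t ht)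
    have h2 : I.1.getD (I.1.idxOf t) (0, 0, 0) = t := by
      rw [List.getD_eq_getElem?_getD, List.getElem?_eq_getElem h1]
      simp
    obtain ⟨i, hi, hie⟩ := mem_el_cmp.1 (show e ∈ el (I.1.getD (I.1.idxOf t) (0, 0, 0)) by
      rw [h2]; exact het)
    exact ⟨I.1.idxOf t, i, h1, hi, ⟨by rw [h2]; exact ht, by rw [h2]⟩, hie⟩
  choose! P Q hP hQ hC hPQ using hpl
  let col : Lab → ℕ × ℕ := fun x => match x with
    | Sum.inl e => (P e, Q e)
    | Sum.inr q => if Chosen I C q.1 then (q.1, q.2.1) else (q.1, if q.2.2 then 1 else 0)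
  let K : Finset (ℕ × ℕ) := (Finset.range I.1.length ×ˢ Finset.range 2) ∪
    (((Finset.range I.1.length).filter (fun p => Chosen I C p)) ×ˢ {2})
  have hK : ∀ x ∈ labs I, col x ∈ K := by
    have aux : ∀ p i, p < I.1.length → i < 3 → Chosen I C p → (p, i) ∈ K := by
      intro p i h1 h2 h3
      simp only [K, Finset.mem_union, Finset.mem_product, Finset.mem_range, Finset.mem_filter,
        Finset.mem_singleton]
      by_cases h : i < 2
      · exact Or.inl ⟨h1, h⟩
      · exact Or.inr ⟨⟨h1, h3⟩, by omega⟩
    rintro (e | ⟨t, i, s⟩) hx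
    · have he := mem_labs_inl.1 hx
      exact aux _ _ (hP e he) (hQ e he) (hC e he)
    · obtain ⟨ht, hi⟩ := mem_labs_inr.1 hx
      simp only [col]
      split_ifs with h1 h2
      · exact aux _ _ ht hi h1
      · simp only [K, Finset.mem_union, Finset.mem_product, Finset.mem_range]
        exact Or.inl ⟨ht, by omega⟩
      · simp only [K, Finset.mem_union, Finset.mem_product, Finset.mem_range]
        exact Or.inl ⟨ht, by omega⟩
  have hcol : ∀ x ∈ labs I, ∀ y ∈ labs I, x ≠ y → col x = col y → adjH I.1 x y = true := by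
    rintro (e | ⟨t, i, s⟩) hx (f | ⟨t', i', s'⟩) hy hne h
    · exfalso
      have he := mem_labs_inl.1 hx
      have hf := mem_labs_inl.1 hy
      simp only [col, Prod.mk.injEq] at h
      apply hne
      rw [← hPQ e he, ← hPQ f hf, h.1, h.2]
    · have he := mem_labs_inl.1 hx
      simp only [col] at h
      rw [adjH_lr]
      have h3 : P e = t' := by
        split_ifs at h <;> simp only [Prod.mk.injEq] at h <;> exact h.1
      have h4 : Chosen I C t' := by rw [← h3]; exact hC e he
      rw [if_pos h4] at h
      simp only [Prod.mk.injEq] at h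
      rw [← h.1, ← h.2]
      exact hPQ e he
    · have he := mem_labs_inl.1 hy
      simp only [col] at h
      rw [adjH_rl]
      have h3 : t = P f := by
        split_ifs at h <;> simp only [Prod.mk.injEq] at h <;> exact h.1
      have h4 : Chosen I C t := by rw [h3]; exact hC f he
      rw [if_pos h4] at h
      simp only [Prod.mk.injEq] at h
      rw [h.1, h.2]
      exact hPQ f he
    · simp only [col] at h
      rw [adjH_rr]
      have h3 : t = t' := by
        split_ifs at h <;> simp only [Prod.mk.injEq] at h <;> exact h.1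
      subst h3
      refine ⟨rfl, ?_⟩
      split_ifs at h with h1 h2 h4 h5
      · simp only [Prod.mk.injEq, true_and] at h
        subst h
        exact Or.inl ⟨rfl, fun h => hne (by rw [h])⟩
      · right
        have : s = s' := by rw [h2, h4]
        exact ⟨fun h => hne (by rw [h, this]), this⟩
      · simp at h
      · simp at h
      · right
        have : s = s' := by
          revert h2 h5
          cases s <;> cases s' <;> simp
        exact ⟨fun h => hne (by rw [h, this]), this⟩
  have hcard : K.card ≤ I.2 + 2 * I.1.length := by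
    have h1 : (((Finset.range I.1.length).filter (fun p => Chosen I C p))).card ≤ I.2 := by
      calc _ ≤ C.toFinset.card := by
            refine Finset.card_le_card_of_injOn (fun p => I.1.getD p (0, 0, 0)) ?_ ?_
            · intro p hp
              rw [Finset.mem_coe, Finset.mem_filter] at hp
              exact Finset.mem_coe.2 (List.mem_toFinset.2 hp.2.1)
            · intro p hp p' hp' h
              rw [Finset.mem_coe, Finset.mem_filter] at hp hp'
              simp only at h
              rw [← hp.2.2, ← hp'.2.2, h]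
        _ ≤ C.length := List.toFinset_card_le _
        _ = I.2 := hlen
    calc K.card ≤ _ := Finset.card_union_le _ _
      _ = I.1.length * 2 + ((Finset.range I.1.length).filter (fun p => Chosen I C p)).card := by
          rw [Finset.card_product, Finset.card_product]
          simp
      _ ≤ _ := by omega
  let c : (GG I).Coloring {x // x ∈ K} := SimpleGraph.Coloring.mk
    (fun v => ⟨col v.1, hK v.1 v.2⟩) (by
      intro u v huv h
      rw [GG_adj] at huv
      have := hcol u.1 u.2 v.1 v.2 (fun h' => huv.1 (Subtype.ext h')) (congrArg Subtype.val h)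
      rw [huv.2] at this
      exact absurd this (by simp))
  have h1 := c.colorable
  rw [Fintype.card_coe] at h1
  exact h1.mono hcard

end Forward

section Backward

variable {I : List (ℕ × ℕ × ℕ) × ℕ}

/-- Every colour class has exactly three vertices. -/
theorem class_card (hS : Dist I.1) (c : (GG I).Coloring (Fin (I.2 + 2 * I.1.length)))
    (r : Fin (I.2 + 2 * I.1.length)) :
    (Finset.univ.filter fun v => c v = r).card = 3 := by
  classical
  have hle : ∀ r, (Finset.univ.filter fun v => c v = r).card ≤ 3 := by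
    intro r
    by_contra hcon
    push Not at hcon
    obtain ⟨u, hu⟩ : (Finset.univ.filter fun v => c v = r).Nonempty :=
      Finset.card_pos.1 (by omega)
    have h1 := Finset.card_erase_of_mem hu
    obtain ⟨v, hv⟩ : ((Finset.univ.filter fun v => c v = r).erase u).Nonempty :=
      Finset.card_pos.1 (by omega)
    have h2 := Finset.card_erase_of_mem hv
    obtain ⟨w, hw, w', hw', hww⟩ := Finset.one_lt_card.1
      (show 1 < (((Finset.univ.filter fun v => c v = r).erase u).erase v).card by omega)
    simp only [Finset.mem_erase, Finset.mem_filter, Finset.mem_univ, true_and] at hu hv hw hw'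
    have key : ∀ a b : {x // x ∈ labs I}, a ≠ b → c a = r → c b = r →
        adjH I.1 a.1 b.1 = true := by
      intro a b hab ha hb
      exact GG_not_adj (fun h => c.valid h (ha.trans hb.symm)) hab
    have := tri_unique hS (val_of_mem u.2) (val_of_mem v.2) (val_of_mem w.2) (val_of_mem w'.2)
      (key u v (Ne.symm hv.1) hu hv.2) (key u w (Ne.symm hw.2.1) hu hw.2.2)
      (key v w (Ne.symm hw.1) hv.2 hw.2.2) (key u w' (Ne.symm hw'.2.1) hu hw'.2.2)
      (key v w' (Ne.symm hw'.1) hv.2 hw'.2.2)
    exact hww (Subtype.ext this)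
  have hsum : ∑ r, (Finset.univ.filter fun v => c v = r).card =
      3 * (I.2 + 2 * I.1.length) := by
    rw [← Finset.card_eq_sum_card_fiberwise (s := Finset.univ) (fun v _ => Finset.mem_univ _)]
    rw [Finset.card_univ, Fintype.card_of_subtype (labs I).toFinset (by simp),
      List.toFinset_card_of_nodup (labs_nodup I), labs_length]
  by_contra hne
  have hlt : (Finset.univ.filter fun v => c v = r).card < 3 := lt_of_le_of_ne (hle r) hne
  have : ∑ r, (Finset.univ.filter fun v => c v = r).card <
      ∑ _r : Fin (I.2 + 2 * I.1.length), 3 :=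
    Finset.sum_lt_sum (fun i _ => hle i) ⟨r, Finset.mem_univ _, hlt⟩
  rw [hsum] at this
  simp at this
  omega

/-- Two labels have the same colour. -/
def Same (c : (GG I).Coloring (Fin (I.2 + 2 * I.1.length))) (x y : Lab) : Prop :=
  ∃ (hx : x ∈ labs I) (hy : y ∈ labs I), c ⟨x, hx⟩ = c ⟨y, hy⟩

variable {c : (GG I).Coloring (Fin (I.2 + 2 * I.1.length))}

theorem Same.symm {x y : Lab} (h : Same c x y) : Same c y x := by
  obtain ⟨hx, hy, h⟩ := h
  exact ⟨hy, hx, h.symm⟩

theorem Same.trans {x y z : Lab} (h : Same c x y) (h' : Same c y z) : Same c x z := by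
  obtain ⟨hx, hy, h⟩ := h
  obtain ⟨_, hz, h'⟩ := h'
  exact ⟨hx, hz, h.trans h'⟩

theorem Same.adj {x y : Lab} (h : Same c x y) (hne : x ≠ y) : adjH I.1 x y = true := by
  obtain ⟨hx, hy, h⟩ := h
  exact GG_not_adj (u := ⟨x, hx⟩) (v := ⟨y, hy⟩) (fun h' => c.valid h' h)
    (fun h' => hne (congrArg Subtype.val h'))

theorem exists_same (hS : Dist I.1) {x : Lab} (hx : x ∈ labs I) : ∃ y, x ≠ y ∧ Same c x y := by
  classical
  have h1 := class_card hS c (c ⟨x, hx⟩)
  have hmem : (⟨x, hx⟩ : {x // x ∈ labs I}) ∈
      Finset.univ.filter fun v => c v = c ⟨x, hx⟩ := by simp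
  have h2 := Finset.card_erase_of_mem hmem
  obtain ⟨v, hv⟩ : ((Finset.univ.filter fun v => c v = c ⟨x, hx⟩).erase ⟨x, hx⟩).Nonempty :=
    Finset.card_pos.1 (by omega)
  simp only [Finset.mem_erase, Finset.mem_filter, Finset.mem_univ, true_and] at hv
  exact ⟨v.1, fun h => hv.1 (Subtype.ext h.symm), hx, v.2, hv.2.symm⟩

theorem exists_third (hS : Dist I.1) {x y : Lab} (h : Same c x y) (hne : x ≠ y) :
    ∃ z, x ≠ z ∧ y ≠ z ∧ Same c x z := by
  classical
  obtain ⟨hx, hy, h⟩ := h
  have h1 := class_card hS c (c ⟨x, hx⟩)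
  have hmem : (⟨x, hx⟩ : {x // x ∈ labs I}) ∈
      Finset.univ.filter fun v => c v = c ⟨x, hx⟩ := by simp
  have h2 := Finset.card_erase_of_mem hmem
  have hmem2 : (⟨y, hy⟩ : {x // x ∈ labs I}) ∈
      (Finset.univ.filter fun v => c v = c ⟨x, hx⟩).erase ⟨x, hx⟩ := by
    simp only [Finset.mem_erase, Finset.mem_filter, Finset.mem_univ, true_and]
    exact ⟨fun h' => hne (congrArg Subtype.val h').symm, h.symm⟩
  have h3 := Finset.card_erase_of_mem hmem2
  obtain ⟨v, hv⟩ : (((Finset.univ.filter fun v => c v = c ⟨x, hx⟩).erase ⟨x, hx⟩).erase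
    ⟨y, hy⟩).Nonempty := Finset.card_pos.1 (by omega)
  simp only [Finset.mem_erase, Finset.mem_filter, Finset.mem_univ, true_and] at hv
  exact ⟨v.1, fun h => hv.2.1 (Subtype.ext h.symm), fun h => hv.1 (Subtype.ext h.symm), hx, v.2,
    hv.2.2.symm⟩

/-- Both vertices of a rung have the same colour. -/
def Used (c : (GG I).Coloring (Fin (I.2 + 2 * I.1.length))) (t i : ℕ) : Prop :=
  Same c (Sum.inr (t, i, false)) (Sum.inr (t, i, true))

theorem Used.elt (hS : Dist I.1) {t i : ℕ} (h : Used c t i) :
    Same c (Sum.inr (t, i, false)) (Sum.inl (cmp I.1 t i)) := by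
  obtain ⟨z, h1, h2, h3⟩ := exists_third hS h (by simp)
  have a1 := h3.adj h1
  have a2 := (h.symm.trans h3).adj h2
  rcases z with e | ⟨t', i', s'⟩
  · rw [adjH_rl] at a1
    rw [a1]
    exact h3
  · exfalso
    rw [adjH_rr] at a1 a2
    obtain ⟨rfl, a1⟩ := a1
    obtain ⟨-, a2⟩ := a2
    cases s'
    · simp only [ne_eq, not_true_eq_false, and_false, false_or, and_true] at a1
      simp only [Bool.true_eq_false, and_false, or_false] at a2
      exact a1 a2.1
    · simp only [Bool.false_eq_true, and_false, or_false] at a1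
      simp only [ne_eq, not_true_eq_false, and_false, false_or, and_true] at a2
      exact a2 a1.1

theorem used_of_elt (hS : Dist I.1) {e : ℕ} (he : e < 3 * I.2) :
    ∃ t i, t < I.1.length ∧ i < 3 ∧ Used c t i ∧ cmp I.1 t i = e := by
  obtain ⟨a, ha, hxa⟩ := exists_same (c := c) hS (mem_labs_inl.2 he)
  obtain ⟨b, hb, hab, hxb⟩ := exists_third hS hxa ha
  have a1 := hxa.adj ha
  have a2 := hxb.adj hb
  have a3 := (hxa.symm.trans hxb).adj hab
  have hsame := hxa.symm.trans hxb
  have ham : a ∈ labs I := hxa.2.1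
  have hbm : b ∈ labs I := hxb.2.1
  rcases a with f | ⟨t, i, s⟩
  · simp at a1
  rcases b with f | ⟨t', i', s'⟩
  · simp at a2
  rw [adjH_lr] at a1 a2
  rw [adjH_rr] at a3
  obtain ⟨rfl, a3⟩ := a3
  obtain ⟨ht, hi⟩ := mem_labs_inr.1 ham
  obtain ⟨-, hi'⟩ := mem_labs_inr.1 hbm
  have := cmp_inj hS ht hi hi' (a1.trans a2.symm)
  subst this
  simp only [true_and, ne_eq, not_true_eq_false, false_and, or_false] at a3
  refine ⟨t, i, ht, hi, ?_, a1⟩
  unfold Used
  cases s <;> cases s'
  · simp at a3
  · exact hsame
  · exact hsame.symm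
  · simp at a3

theorem Used.all (hS : Dist I.1) {t i j : ℕ} (ht : t < I.1.length) (hi : i < 3) (hj : j < 3)
    (h : Used c t i) : Used c t j := by
  by_cases hij : i = j
  · rw [← hij]; exact h
  have hx : (Sum.inr (t, j, false) : Lab) ∈ labs I := mem_labs_inr.2 ⟨ht, hj⟩
  obtain ⟨a, ha, hxa⟩ := exists_same (c := c) hS hx
  obtain ⟨b, hb, hab, hxb⟩ := exists_third hS hxa ha
  have key : ∀ a b : Lab, Sum.inr (t, j, false) ≠ a → Same c (Sum.inr (t, j, false)) a →
      Sum.inr (t, j, false) ≠ b → a ≠ b → Same c (Sum.inr (t, j, false)) b →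
      Used c t j := by
    intro a b ha hxa hb hab hxb
    have a1 := hxa.adj ha
    have a2 := hxb.adj hb
    have a3 := (hxa.symm.trans hxb).adj hab
    have ham : a ∈ labs I := hxa.2.1
    have hbm : b ∈ labs I := hxb.2.1
    rcases a with e | ⟨t1, i1, s1⟩
    · rcases b with f | ⟨t2, i2, s2⟩
      · simp at a3
      · rw [adjH_rl] at a1
        rw [adjH_lr] at a3
        rw [adjH_rr] at a2
        obtain ⟨rfl, a2⟩ := a2
        obtain ⟨-, hi2⟩ := mem_labs_inr.1 hbm
        have := cmp_inj hS ht hj hi2 (a1.trans a3.symm)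
        subst this
        cases s2
        · simp at a2
        · exact hxb
    · rw [adjH_rr] at a1
      obtain ⟨rfl, a1⟩ := a1
      obtain ⟨-, hi1⟩ := mem_labs_inr.1 ham
      cases s1
      · -- a face
        simp only [ne_eq, not_true_eq_false, and_false, false_or, and_true] at a1
        exfalso
        rcases b with f | ⟨t2, i2, s2⟩
        · rw [adjH_rl] at a2 a3
          exact a1 (cmp_inj hS ht hj hi1 (a2.trans a3.symm))
        · rw [adjH_rr] at a2 a3
          obtain ⟨rfl, a2⟩ := a2
          obtain ⟨-, a3⟩ := a3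
          obtain ⟨-, hi2⟩ := mem_labs_inr.1 hbm
          cases s2
          · simp only [ne_eq, not_true_eq_false, and_false, false_or, and_true] at a2 a3
            have hi' : i = i1 ∨ i = i2 := by omega
            have hsame : Same c (Sum.inr (t, j, false)) (Sum.inr (t, i, false)) := by
              rcases hi' with rfl | rfl
              · exact hxa
              · exact hxb
            have := (hsame.trans h).adj (by simp)
            rw [adjH_rr] at this
            simp only [true_and, ne_eq, Bool.false_eq_true, not_false_eq_true, and_true,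
              and_false, or_false] at this
            exact hij this.symm
          · simp only [Bool.false_eq_true, and_false, or_false] at a2 a3
            exact a1 (a2.1.trans a3.1.symm)
      · simp only [Bool.false_eq_true, and_false, or_false, ne_eq, not_false_eq_true,
          and_true] at a1
        subst a1
        exact hxa
  exact key a b ha hxa hb hab hxb

/-- From a colouring to an exact cover. -/
theorem cover_of_coloring (hI : X3CPr I)
    (c : (GG I).Coloring (Fin (I.2 + 2 * I.1.length))) : X3C I := by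
  classical
  have hS : Dist I.1 := fun t ht => (hI.1 t ht).1
  rw [X3C_iff_finset hI]
  refine ⟨((Finset.range I.1.length).filter (fun p => Used c p 0)).image
    (fun p => I.1.getD p (0, 0, 0)), ?_, ?_⟩
  · intro t ht
    rw [Finset.mem_image] at ht
    obtain ⟨p, hp, rfl⟩ := ht
    rw [Finset.mem_filter, Finset.mem_range] at hp
    rw [List.getD_eq_getElem?_getD, List.getElem?_eq_getElem hp.1]
    exact List.getElem_mem hp.1
  · intro x hx
    obtain ⟨t, i, ht, hi, hu, hcmp⟩ := used_of_elt (c := c) hS hx
    refine ⟨I.1.getD t (0, 0, 0), ⟨?_, mem_el_cmp.2 ⟨i, hi, hcmp⟩⟩, ?_⟩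
    · rw [Finset.mem_image]
      exact ⟨t, Finset.mem_filter.2 ⟨Finset.mem_range.2 ht, hu.all hS ht hi (by omega)⟩, rfl⟩
    · rintro t' ⟨ht', hx'⟩
      rw [Finset.mem_image] at ht'
      obtain ⟨p, hp, rfl⟩ := ht'
      rw [Finset.mem_filter, Finset.mem_range] at hp
      obtain ⟨j, hj, hjx⟩ := mem_el_cmp.1 hx'
      have h1 := (hp.2.all hS hp.1 (by omega) hj).elt hS
      have h2 := hu.elt hS
      rw [hjx] at h1
      rw [hcmp] at h2
      have h3 := h1.trans h2.symm
      by_cases hpt : p = t
      · rw [hpt]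
      · have := h3.adj (by
          intro h
          simp only [Sum.inr.injEq, Prod.mk.injEq] at h
          exact hpt h.1)
        rw [adjH_rr] at this
        exact absurd this.1 hpt

theorem X3C_iff_colorable (hI : X3CPr I) :
    X3C I ↔ (GG I).Colorable (I.2 + 2 * I.1.length) := by
  constructor
  · rintro ⟨C, hC, hp⟩
    exact colorable_of_cover hC hp
  · rintro ⟨c⟩
    exact cover_of_coloring hI c

end Backward

end Pool.Agent.X248.OHF
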