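import Pool.Agent.H622R2.MatGraph
import Pool.Agent.H632R2.X3C

/-!
# Colouring odd-hole-free graphs: definitions and the structure of the gadget graph
-/

set_option autoImplicit false

namespace Pool.Agent.X248.OHF

open Pool.Agent.NPC Pool.Agent.H622R2 Pool.Agent.NPC.H632

/-- A graph is odd-hole-free when it has no induced cycle of odd length at least five. -/
def OddHoleFree {V : Type} (G : SimpleGraph V) : Prop :=
  ∀ k : ℕ, 2 ≤ k → IsEmpty (SimpleGraph.cycleGraph (2 * k + 1) ↪g G)

/-- Labels: an element `e`, or the vertex `(i, s)` of the prism of the `t`-th triple. -/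
abbrev Lab := ℕ ⊕ (ℕ × ℕ × Bool)

/-- The `i`-th component of the `t`-th triple. -/
def cmp (S : List (ℕ × ℕ × ℕ)) (t i : ℕ) : ℕ :=
  if i = 0 then (S.getD t (0, 0, 0)).1 else if i = 1 then (S.getD t (0, 0, 0)).2.1
    else (S.getD t (0, 0, 0)).2.2

/-- Adjacency in the gadget graph. -/
def adjH (S : List (ℕ × ℕ × ℕ)) : Lab → Lab → Bool
  | Sum.inl _, Sum.inl _ => false
  | Sum.inl e, Sum.inr q => decide (cmp S q.1 q.2.1 = e)
  | Sum.inr p, Sum.inl e => decide (cmp S p.1 p.2.1 = e)
  | Sum.inr p, Sum.inr q => decide (p.1 = q.1) &&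
      (decide (p.2.1 = q.2.1) ^^ decide (p.2.2 = q.2.2))

theorem adjH_symm (S : List (ℕ × ℕ × ℕ)) (u v : Lab) : adjH S u v = adjH S v u := by
  rcases u with e | p <;> rcases v with f | q <;> simp only [adjH]
  rw [show decide (p.1 = q.1) = decide (q.1 = p.1) by rw [decide_eq_decide]; exact eq_comm,
    show decide (p.2.1 = q.2.1) = decide (q.2.1 = p.2.1) by rw [decide_eq_decide]; exact eq_comm,
    show decide (p.2.2 = q.2.2) = decide (q.2.2 = p.2.2) by rw [decide_eq_decide]; exact eq_comm]

/-- The labels of the vertices. -/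
def labs (I : List (ℕ × ℕ × ℕ) × ℕ) : List Lab :=
  (List.range (3 * I.2)).map Sum.inl ++
  (List.range I.1.length).flatMap fun t =>
    [(Sum.inr (t, 0, false) : Lab), Sum.inr (t, 0, true), Sum.inr (t, 1, false),
      Sum.inr (t, 1, true), Sum.inr (t, 2, false), Sum.inr (t, 2, true)]

theorem mem_labs_inl {I : List (ℕ × ℕ × ℕ) × ℕ} {e : ℕ} :
    (Sum.inl e : Lab) ∈ labs I ↔ e < 3 * I.2 := by
  simp [labs]

theorem mem_labs_inr {I : List (ℕ × ℕ × ℕ) × ℕ} {t i : ℕ} {s : Bool} :
    (Sum.inr (t, i, s) : Lab) ∈ labs I ↔ t < I.1.length ∧ i < 3 := by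
  simp only [labs, List.mem_append, List.mem_map, List.mem_range, reduceCtorEq, and_false,
    exists_false, List.mem_flatMap, List.mem_cons, Sum.inr.injEq, Prod.mk.injEq,
    List.not_mem_nil, or_false, false_or]
  constructor
  · rintro ⟨a, ha, h⟩
    rcases h with h | h | h | h | h | h <;> obtain ⟨rfl, rfl, rfl⟩ := h <;> exact ⟨ha, by omega⟩
  · rintro ⟨ht, hi⟩
    refine ⟨t, ht, ?_⟩
    have : i = 0 ∨ i = 1 ∨ i = 2 := by omega
    rcases this with rfl | rfl | rfl <;> cases s <;> simp

theorem labs_length (I : List (ℕ × ℕ × ℕ) × ℕ) :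
    (labs I).length = 3 * (I.2 + 2 * I.1.length) := by
  unfold labs
  rw [List.length_append, List.length_map, List.length_range, List.length_flatMap]
  simp
  ring

theorem labs_nodup (I : List (ℕ × ℕ × ℕ) × ℕ) : (labs I).Nodup := by
  unfold labs
  rw [List.nodup_append]
  refine ⟨?_, ?_, ?_⟩
  · exact List.nodup_range.map (fun a b h => by simpa using h)
  · rw [List.nodup_flatMap]
    refine ⟨fun t _ => by simp, ?_⟩
    refine (List.nodup_range (n := I.1.length)).imp ?_
    intro a b hab x hx hy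
    simp only [List.mem_cons, List.not_mem_nil, or_false] at hx hy
    rcases hx with h | h | h | h | h | h <;> subst h <;>
      simp [hab] at hy
  · intro x hx y hy hxy
    subst hxy
    simp only [List.mem_map, List.mem_flatMap, List.mem_cons, List.not_mem_nil, or_false] at hx hy
    obtain ⟨e, _, rfl⟩ := hx
    obtain ⟨t, _, h⟩ := hy
    simp at h

/-- Distinct components. -/
def Dist (S : List (ℕ × ℕ × ℕ)) : Prop := ∀ t ∈ S, (el t).Nodup

theorem cmp_inj {S : List (ℕ × ℕ × ℕ)} (hS : Dist S) {t i j : ℕ} (ht : t < S.length)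
    (hi : i < 3) (hj : j < 3) (h : cmp S t i = cmp S t j) : i = j := by
  have h1 := hS _ (List.getElem_mem ht)
  unfold cmp at h
  rw [List.getD_eq_getElem?_getD, List.getElem?_eq_getElem ht] at h
  simp only [Option.getD_some] at h
  simp only [el, List.nodup_cons, List.mem_cons, List.not_mem_nil, or_false, not_or,
    List.nodup_nil, not_false_eq_true, and_true] at h1
  obtain ⟨⟨h2, h3⟩, h4⟩ := h1
  have hi' : i = 0 ∨ i = 1 ∨ i = 2 := by omega
  have hj' : j = 0 ∨ j = 1 ∨ j = 2 := by omega
  rcases hi' with rfl | rfl | rfl <;> rcases hj' with rfl | rfl | rfl <;> simp at h ⊢ <;>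
    first
    | exact absurd h h2
    | exact absurd h h3
    | exact absurd h h4
    | exact absurd h.symm h2
    | exact absurd h.symm h3
    | exact absurd h.symm h4

/-- Validity of a label. -/
def Val (S : List (ℕ × ℕ × ℕ)) : Lab → Prop
  | Sum.inl _ => True
  | Sum.inr p => p.1 < S.length ∧ p.2.1 < 3

theorem val_of_mem {I : List (ℕ × ℕ × ℕ) × ℕ} {x : Lab} (h : x ∈ labs I) : Val I.1 x := by
  rcases x with e | ⟨t, i, s⟩
  · trivial
  · exact mem_labs_inr.1 h

section

variable {S : List (ℕ × ℕ × ℕ)}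

@[simp] theorem adjH_ll (e f : ℕ) : adjH S (Sum.inl e) (Sum.inl f) = false := rfl

@[simp] theorem adjH_lr (e t i : ℕ) (s : Bool) :
    adjH S (Sum.inl e) (Sum.inr (t, i, s)) = true ↔ cmp S t i = e := by
  simp [adjH]

@[simp] theorem adjH_rl (e t i : ℕ) (s : Bool) :
    adjH S (Sum.inr (t, i, s)) (Sum.inl e) = true ↔ cmp S t i = e := by
  simp [adjH]

theorem adjH_rr (t i t' i' : ℕ) (s s' : Bool) :
    adjH S (Sum.inr (t, i, s)) (Sum.inr (t', i', s')) = true ↔
      t = t' ∧ ((i = i' ∧ s ≠ s') ∨ (i ≠ i' ∧ s = s')) := by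
  simp only [adjH, Bool.and_eq_true, decide_eq_true_eq, bne_iff_ne]
  by_cases h1 : t = t' <;> by_cases h2 : i = i' <;> by_cases h3 : s = s' <;> simp [h1, h2, h3]

theorem adjH_irrefl (x : Lab) : adjH S x x = false := by
  rcases x with e | ⟨t, i, s⟩
  · rfl
  · rw [← Bool.not_eq_true, adjH_rr]
    simp

/-- Every edge is in at most one triangle. -/
theorem tri_unique (hS : Dist S) {u v w w' : Lab} (hu : Val S u) (hv : Val S v) (hw : Val S w)
    (hw' : Val S w') (huv : adjH S u v = true) (huw : adjH S u w = true)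
    (hvw : adjH S v w = true) (huw' : adjH S u w' = true) (hvw' : adjH S v w' = true) :
    w = w' := by
  rcases u with e | ⟨t, i, s⟩
  · rcases v with f | ⟨t', i', s'⟩
    · simp at huv
    · rcases w with g | ⟨a, j, r⟩
      · simp at huw
      · rcases w' with g' | ⟨a', j', r'⟩
        · simp at huw'
        · rw [adjH_lr] at huv huw huw'
          rw [adjH_rr] at hvw hvw'
          obtain ⟨h1, h2⟩ := hvw
          obtain ⟨h3, h4⟩ := hvw'
          subst h1 h3
          have e1 := cmp_inj hS hv.1 hv.2 hw.2 (huv.trans huw.symm)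
          have e2 := cmp_inj hS hv.1 hv.2 hw'.2 (huv.trans huw'.symm)
          simp only at e1 e2
          subst e1 e2
          simp only [true_and, ne_eq, not_true_eq_false, false_and, or_false] at h2 h4
          have : r = r' := by
            revert h2 h4
            cases s' <;> cases r <;> cases r' <;> simp
          rw [this]
  · rcases v with f | ⟨t', i', s'⟩
    · rcases w with g | ⟨a, j, r⟩
      · simp at hvw
      · rcases w' with g' | ⟨a', j', r'⟩
        · simp at hvw'
        · rw [adjH_rl] at huv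
          rw [adjH_lr] at hvw hvw'
          rw [adjH_rr] at huw huw'
          obtain ⟨h1, h2⟩ := huw
          obtain ⟨h3, h4⟩ := huw'
          subst h1 h3
          have e1 := cmp_inj hS hu.1 hu.2 hw.2 (huv.trans hvw.symm)
          have e2 := cmp_inj hS hu.1 hu.2 hw'.2 (huv.trans hvw'.symm)
          simp only at e1 e2
          subst e1 e2
          simp only [true_and, ne_eq, not_true_eq_false, false_and, or_false] at h2 h4
          have : r = r' := by
            revert h2 h4
            cases s <;> cases r <;> cases r' <;> simp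
          rw [this]
    · rw [adjH_rr] at huv
      obtain ⟨h0, h1⟩ := huv
      subst h0
      rcases h1 with ⟨h1, h2⟩ | ⟨h1, h2⟩
      · subst h1
        have key : ∀ x : Lab, Val S x → adjH S (Sum.inr (t, i, s)) x = true →
            adjH S (Sum.inr (t, i, s')) x = true → x = Sum.inl (cmp S t i) := by
          rintro (g | ⟨a, j, r⟩) _ k1 k2
          · rw [adjH_rl] at k1
            rw [k1]
          · rw [adjH_rr] at k1 k2
            exfalso
            obtain ⟨-, k1⟩ := k1
            obtain ⟨-, k2⟩ := k2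
            rcases k1 with ⟨k1, k3⟩ | ⟨k1, k3⟩
            · rcases k2 with ⟨k2, k4⟩ | ⟨k2, k4⟩
              · revert h2 k3 k4
                cases s <;> cases s' <;> cases r <;> simp
              · exact k2 k1
            · rcases k2 with ⟨k2, k4⟩ | ⟨k2, k4⟩
              · exact k1 k2
              · exact h2 (k3.trans k4.symm)
        rw [key w hw huw hvw, key w' hw' huw' hvw']
      · subst h2
        have hi : i < 3 := hu.2
        have hi' : i' < 3 := hv.2
        have key : ∀ x : Lab, Val S x → adjH S (Sum.inr (t, i, s)) x = true →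
            adjH S (Sum.inr (t, i', s)) x = true → x = Sum.inr (t, 3 - i - i', s) := by
          rintro (g | ⟨a, j, r⟩) hx k1 k2
          · rw [adjH_rl] at k1 k2
            exact absurd (cmp_inj hS hu.1 hi hi' (k1.trans k2.symm)) h1
          · rw [adjH_rr] at k1 k2
            obtain ⟨rfl, k1⟩ := k1
            obtain ⟨-, k2⟩ := k2
            have hj : j < 3 := hx.2
            rcases k1 with ⟨k1, k3⟩ | ⟨k1, k3⟩
            · rcases k2 with ⟨k2, k4⟩ | ⟨k2, k4⟩
              · exact absurd (k1.trans k2.symm) h1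
              · exact absurd k4 k3
            · rcases k2 with ⟨k2, k4⟩ | ⟨k2, k4⟩
              · exact absurd k3 k4
              · have : j = 3 - i - i' := by omega
                rw [this, k3]
        rw [key w hw huw hvw, key w' hw' huw' hvw']

/-- No induced cycle with five vertices, one of them an element. -/
theorem noC5_aux (hS : Dist S) (v : Fin 5 → Lab) (hv : ∀ i, Val S (v i))
    (h1 : ∀ i, adjH S (v i) (v (i + 1)) = true) (h2 : ∀ i, adjH S (v i) (v (i + 2)) = false)
    (h3 : ∀ i, v i ≠ v (i + 2)) (e : ℕ) (he : v 0 = Sum.inl e) : False := by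
  have a1 := h1 0
  have a2 := h1 1
  have a3 := h1 2
  have a4 := h1 3
  have a5 := h1 4
  have b2 := h2 1
  have b3 := h2 2
  have b4 := h2 3
  have c2 := h3 0
  have c3 := h3 3
  have c4 := h3 4
  simp only [zero_add, Fin.reduceAdd] at a1 a2 a3 a4 a5 b2 b3 b4 c2 c3 c4
  have w1 := hv 1
  have w4 := hv 4
  rw [he] at a1 a5 b4 c2 c3
  rcases hv1 : v 1 with f | ⟨t, i, s⟩
  · rw [hv1] at a1
    simp at a1
  rcases hv4 : v 4 with f | ⟨t', i', s'⟩
  · rw [hv4] at a5
    simp at a5
  rw [hv1] at a1 a2 b2 c4 w1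
  rw [hv4] at a5 a4 c4 w4
  rw [adjH_lr] at a1
  rw [adjH_rl] at a5
  rcases hv2 : v 2 with f | ⟨t2, i2, s2⟩
  · rw [hv2, adjH_rl] at a2
    rw [hv2] at c2
    exact c2 (by rw [← a1, ← a2])
  rcases hv3 : v 3 with f | ⟨t3, i3, s3⟩
  · rw [hv3, adjH_lr] at a4
    rw [hv3] at c3
    exact c3 (by rw [← a4, ← a5])
  rw [hv2, adjH_rr] at a2
  rw [hv2, hv3, adjH_rr] at a3
  rw [hv3, adjH_rr] at a4
  obtain ⟨rfl, -⟩ := a2
  obtain ⟨rfl, -⟩ := a3
  obtain ⟨rfl, -⟩ := a4
  have e1 := cmp_inj hS w1.1 w1.2 w4.2 (a1.trans a5.symm)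
  simp only at e1
  subst e1
  have b1 := h2 4
  simp only [Fin.reduceAdd] at b1
  rw [hv1, hv4, ← Bool.not_eq_true, adjH_rr] at b1
  apply b1
  refine ⟨rfl, Or.inl ⟨rfl, ?_⟩⟩
  intro h
  exact c4 (by rw [h])

/-- Adjacency in the prism. -/
def pa (a b : Fin 3 × Bool) : Bool := decide (a.1 = b.1) ^^ decide (a.2 = b.2)

theorem noC5_prism : ∀ a b c d e : Fin 3 × Bool,
    ((pa a b && pa b c && pa c d && pa d e && pa e a) &&
      !(pa a c || pa b d || pa c e || pa d a || pa e b)) = false := by
  decide +kernel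

theorem pa_iff (a b : Fin 3 × Bool) : pa a b = true ↔ (a.1 = b.1 ∧ a.2 ≠ b.2) ∨
    (a.1 ≠ b.1 ∧ a.2 = b.2) := by
  unfold pa
  by_cases h2 : a.1 = b.1 <;> by_cases h3 : a.2 = b.2 <;> simp [h2, h3]

/-- The gadget graph has no induced cycle with five vertices. -/
theorem noC5 (hS : Dist S) (v : Fin 5 → Lab) (hv : ∀ i, Val S (v i))
    (h1 : ∀ i, adjH S (v i) (v (i + 1)) = true) (h2 : ∀ i, adjH S (v i) (v (i + 2)) = false)
    (h3 : ∀ i, v i ≠ v (i + 2)) : False := by
  by_cases h : ∃ j e, v j = Sum.inl e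
  · obtain ⟨j, e, hj⟩ := h
    refine noC5_aux hS (fun i => v (i + j)) (fun i => hv _) (fun i => ?_) (fun i => ?_)
      (fun i => ?_) e (by simpa using hj)
    · have := h1 (i + j)
      rwa [add_right_comm] at this
    · have := h2 (i + j)
      rwa [add_right_comm] at this
    · have := h3 (i + j)
      rwa [add_right_comm] at this
  · push Not at h
    have hall : ∀ j, ∃ t i s, v j = Sum.inr (t, i, s) := by
      intro j
      rcases hj : v j with e | ⟨t, i, s⟩
      · exact absurd hj (h j e)
      · exact ⟨t, i, s, rfl⟩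
    choose t i s hvj using hall
    have hi : ∀ j, i j < 3 := by
      intro j
      have := hv j
      rw [hvj j] at this
      exact this.2
    have ht : ∀ j, t j = t (j + 1) := by
      intro j
      have := h1 j
      rw [hvj j, hvj (j + 1), adjH_rr] at this
      exact this.1
    have ht2 : ∀ j, t j = t (j + 2) := by
      intro j
      rw [ht j, ht (j + 1), add_assoc]
      rfl
    have k1 : ∀ j, pa (⟨i j, hi j⟩, s j) (⟨i (j + 1), hi (j + 1)⟩, s (j + 1)) = true := by
      intro j
      have := h1 j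
      rw [hvj j, hvj (j + 1), adjH_rr] at this
      rw [pa_iff]
      simpa [Fin.ext_iff] using this.2
    have k2 : ∀ j, pa (⟨i j, hi j⟩, s j) (⟨i (j + 2), hi (j + 2)⟩, s (j + 2)) = false := by
      intro j
      have := h2 j
      rw [hvj j, hvj (j + 2), ← Bool.not_eq_true, adjH_rr] at this
      rw [← Bool.not_eq_true, pa_iff]
      intro hcon
      apply this
      refine ⟨ht2 j, ?_⟩
      simpa [Fin.ext_iff] using hcon
    have k3 := noC5_prism (⟨i 0, hi 0⟩, s 0) (⟨i 1, hi 1⟩, s 1) (⟨i 2, hi 2⟩, s 2)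
      (⟨i 3, hi 3⟩, s 3) (⟨i 4, hi 4⟩, s 4)
    have a0 := k1 0
    have a1 := k1 1
    have a2 := k1 2
    have a3 := k1 3
    have a4 := k1 4
    have b0 := k2 0
    have b1 := k2 1
    have b2 := k2 2
    have b3 := k2 3
    have b4 := k2 4
    simp only [zero_add, Fin.reduceAdd] at a0 a1 a2 a3 a4 b0 b1 b2 b3 b4
    rw [a0, a1, a2, a3, a4, b0, b1, b2, b3, b4] at k3
    simp at k3

end

end Pool.Agent.X248.OHF
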