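import Pool.Agent.X248.OHF.Defs

/-!
# The complement of the gadget graph has no odd hole
-/

set_option autoImplicit false

namespace Pool.Agent.X248.OHF

open Pool.Agent.NPC Pool.Agent.H622R2 Pool.Agent.NPC.H632

theorem cyc_adj {n : ℕ} (i j : Fin n) (hij : i.val < j.val) :
    (SimpleGraph.cycleGraph n).Adj i j ↔ (j.val = i.val + 1 ∨ (i.val = 0 ∧ j.val + 1 = n)) := by
  rw [SimpleGraph.cycleGraph_adj']
  have h1 : (j - i).val = j.val - i.val := by
    rw [Fin.sub_val_of_le (Fin.le_def.2 hij.le)]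
  have h2 : (i - j).val = n + i.val - j.val := by
    rw [Fin.coe_sub]
    have := j.2
    rw [Nat.mod_eq_of_lt (by omega)]
    omega
  rw [h1, h2]
  have := j.2
  omega

/-- The graph of an instance: the complement of the gadget graph. -/
abbrev GG (I : List (ℕ × ℕ × ℕ) × ℕ) : SimpleGraph {x // x ∈ labs I} :=
  labGraph (labs I) (fun u v => !adjH I.1 u v)

theorem GG_adj {I : List (ℕ × ℕ × ℕ) × ℕ} (u v : {x // x ∈ labs I}) :
    (GG I).Adj u v ↔ u ≠ v ∧ adjH I.1 u.1 v.1 = false := by
  simp only [labGraph, Bool.not_eq_true']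
  rw [adjH_symm I.1 v.1 u.1, or_self]

theorem GG_not_adj {I : List (ℕ × ℕ × ℕ) × ℕ} {u v : {x // x ∈ labs I}} (h : ¬ (GG I).Adj u v)
    (hne : u ≠ v) : adjH I.1 u.1 v.1 = true := by
  rw [GG_adj] at h
  by_contra hcon
  exact h ⟨hne, by simpa using hcon⟩

theorem GG_oddHoleFree {I : List (ℕ × ℕ × ℕ) × ℕ} (hI : Dist I.1) : OddHoleFree (GG I) := by
  intro k hk
  refine ⟨fun φ => ?_⟩
  have hadj : ∀ i j : Fin (2 * k + 1), i ≠ j → ¬ (SimpleGraph.cycleGraph (2 * k + 1)).Adj i j →
      adjH I.1 (φ i).1 (φ j).1 = true := by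
    intro i j hij h
    refine GG_not_adj (fun h' => h (φ.map_adj_iff.1 h')) (fun h' => hij (φ.injective h'))
  have hnadj : ∀ i j : Fin (2 * k + 1), (SimpleGraph.cycleGraph (2 * k + 1)).Adj i j →
      adjH I.1 (φ i).1 (φ j).1 = false := by
    intro i j h
    exact ((GG_adj _ _).1 (φ.map_adj_iff.2 h)).2
  have hval : ∀ i, Val I.1 (φ i).1 := fun i => val_of_mem (φ i).2
  rcases Nat.lt_or_ge 2 k with h3 | h3
  · -- the complement of a long odd cycle has a diamond
    let a : Fin (2 * k + 1) := ⟨0, by omega⟩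
    let b : Fin (2 * k + 1) := ⟨2, by omega⟩
    let c : Fin (2 * k + 1) := ⟨4, by omega⟩
    let d : Fin (2 * k + 1) := ⟨5, by omega⟩
    have hne : ∀ i j : Fin (2 * k + 1), i.val < j.val →
        ¬ (j.val = i.val + 1 ∨ (i.val = 0 ∧ j.val + 1 = 2 * k + 1)) →
        adjH I.1 (φ i).1 (φ j).1 = true := by
      intro i j hij h
      refine hadj i j (fun h' => ?_) (fun h' => h ((cyc_adj i j hij).1 h'))
      rw [h'] at hij
      exact lt_irrefl _ hij
    have h := tri_unique hI (hval a) (hval b) (hval c) (hval d)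
      (hne a b (by simp [a, b]) (by simp only [a, b]; omega))
      (hne a c (by simp [a, c]) (by simp only [a, c]; omega))
      (hne b c (by simp [b, c]) (by simp only [b, c]; omega))
      (hne a d (by simp [a, d]) (by simp only [a, d]; omega))
      (hne b d (by simp [b, d]) (by simp only [b, d]; omega))
    have h' : c = d := φ.injective (Subtype.ext h)
    simp [c, d, Fin.ext_iff] at h'
  · -- a cycle with five vertices
    have hk2 : k = 2 := by omega
    subst hk2
    have hA : ∀ i : Fin 5, ¬ (SimpleGraph.cycleGraph 5).Adj (2 * i) (2 * (i + 1)) := by decide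
    have hB : ∀ i : Fin 5, (SimpleGraph.cycleGraph 5).Adj (2 * i) (2 * (i + 2)) := by decide
    have hC : ∀ i : Fin 5, 2 * i ≠ 2 * (i + 1) := by decide
    refine noC5 hI (fun i : Fin 5 => (φ (2 * i)).1) (fun i => hval _) (fun i => ?_) (fun i => ?_)
      (fun i => ?_)
    · exact hadj _ _ (hC i) (hA i)
    · exact hnadj _ _ (hB i)
    · intro h
      have h' : (2 * i : Fin 5) = 2 * (i + 2) := φ.injective (Subtype.ext h)
      have := hB i
      rw [← h'] at this
      exact (SimpleGraph.irrefl _) this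

end Pool.Agent.X248.OHF
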