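import Pool.Agent.X248.OHF.Col
import Pool.Agent.X248.Search
import Pool.Agent.H622R2.Base
import Pool.Agent.H671R2.PolyAuto

/-!
# Colouring odd-hole-free graphs is NP-hard
-/

set_option autoImplicit false

namespace Pool.Agent.X248.OHF

open Pool.Agent.NPC Pool.Agent.H622R2 Pool.Agent.NPC.H632

/-- The graph and the number of colours of an instance. -/
def redG (I : List (ℕ × ℕ × ℕ) × ℕ) : List (List Bool) × ℕ :=
  (mat (labs (I.1, min I.2 I.1.length)) (fun u v => !adjH I.1 u v),
    min I.2 I.1.length + 2 * I.1.length)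

theorem poly_labs : Poly (fun I : List (ℕ × ℕ × ℕ) × ℕ => labs (I.1, min I.2 I.1.length)) := by
  have h0 : UPoly (fun I : List (ℕ × ℕ × ℕ) × ℕ => I.1.length) := UPoly.length (by fun_prop)
  have h1 : UPoly (fun I : List (ℕ × ℕ × ℕ) × ℕ => 3 * min I.2 I.1.length) :=
    (UPoly.const 3).mul (UPoly.of_le (by fun_prop) h0 (fun a => min_le_right _ _))
  have h2 := h1.range
  have h3 := h0.range
  unfold labs
  fun_prop

theorem adjH_eq (S : List (ℕ × ℕ × ℕ)) (x y : Lab) : adjH S x y =
    Sum.elim (fun e => Sum.elim (fun _ => false) (fun q => decide (cmp S q.1 q.2.1 = e)) y)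
      (fun p => Sum.elim (fun e => decide (cmp S p.1 p.2.1 = e)) (fun q => decide (p.1 = q.1) &&
      (decide (p.2.1 = q.2.1) ^^ decide (p.2.2 = q.2.2))) y) x := by
  rcases x with e | p <;> rcases y with f | q <;> rfl

theorem poly_cmp {α : Type} [TEnc α] {S : α → List (ℕ × ℕ × ℕ)} {t i : α → ℕ}
    (hS : Poly S) (ht : Poly t) (hi : Poly i) : Poly (fun a => cmp (S a) (t a) (i a)) := by
  unfold cmp
  fun_prop

attribute [local fun_prop] poly_cmp

theorem poly_adjH : Poly (fun p : ((List (ℕ × ℕ × ℕ) × ℕ) × Lab) × Lab =>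
    !adjH p.1.1.1 p.1.2 p.2) := by
  simp only [adjH_eq]
  fun_prop

theorem poly_redG : Poly redG := by
  refine Poly.pair (mat_poly poly_labs poly_adjH) ?_
  fun_prop

theorem redG_eq {I : List (ℕ × ℕ × ℕ) × ℕ} (hI : X3CPr I) : redG I =
    (mat (labs I) (fun u v => !adjH I.1 u v), I.2 + 2 * I.1.length) := by
  have h : min I.2 I.1.length = I.2 := min_eq_left hI.2.2
  unfold redG
  rw [h]

theorem OddHoleFree.of_iso {V W : Type} {G : SimpleGraph V} {H : SimpleGraph W} (e : G ≃g H)
    (h : OddHoleFree G) : OddHoleFree H := fun k hk =>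
  ⟨fun φ => (h k hk).false (φ.trans e.symm.toRelEmbedding)⟩

/-- **Colouring odd-hole-free graphs is NP-hard**, as a promise problem. -/
theorem hardPr_col : HardPr (fun J : List (List Bool) × ℕ => OddHoleFree (matGraph J.1))
    (fun J => (matGraph J.1).Colorable J.2) := by
  refine hardPr_X3C.trans poly_redG ?_ ?_
  · intro I hI
    rw [redG_eq hI]
    exact (GG_oddHoleFree (fun t ht => (hI.1 t ht).1)).of_iso
      (matIso (labs I) (fun u v => !adjH I.1 u v) (labs_nodup I)).symm
  · intro I hI
    rw [redG_eq hI, X3C_iff_colorable hI]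
    have e := matIso (labs I) (fun u v => !adjH I.1 u v) (labs_nodup I)
    exact ⟨fun h => h.of_hom e.toHom, fun h => h.of_hom e.symm.toHom⟩

/-- `c` lists the colours of the vertices of the graph with adjacency matrix `M` in a proper
colouring. -/
def IsCol (M : List (List Bool)) (c : List ℕ) : Prop :=
  c.length = M.length ∧ ∀ i j : Fin M.length, (matGraph M).Adj i j → c.getD i 0 ≠ c.getD j 0

/-- `c` is an optimal colouring: a proper colouring with as few colours as possible. -/
def IsOptCol (M : List (List Bool)) (c : List ℕ) : Prop :=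
  IsCol M c ∧ (c.toFinset.card : ℕ∞) = (matGraph M).chromaticNumber

/-- Some polynomial-time algorithm outputs an optimal colouring of every odd-hole-free graph. -/
def PolyOptCol : Prop :=
  ∃ F : List Bool → List Bool, PolyTime F ∧ ∀ M : List (List Bool), OddHoleFree (matGraph M) →
    ∃ c : List ℕ, F (bits M) = bits c ∧ IsOptCol M c

theorem length_ddup (c : List ℕ) : (ddup c).length = c.toFinset.card := by
  have h : (ddup c).toFinset = c.toFinset := by
    ext x
    rw [List.mem_toFinset, List.mem_toFinset, mem_ddup]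
  rw [← h, List.toFinset_card_of_nodup (ddup_nodup c)]

/-- **A polynomial-time algorithm for optimal colouring of odd-hole-free graphs would put `NP` in
`P`.** -/
theorem collapse (h : PolyOptCol) : PEqNP := by
  obtain ⟨F, hF, hopt⟩ := h
  refine search_collapse (g := fun J : List (List Bool) × ℕ => J.1)
    (chk := fun J (c : List ℕ) => decide ((ddup c).length ≤ J.2)) hardPr_col (by fun_prop) hF
    (Poly.decide_le (Poly.length (ddup_poly (by fun_prop))) (by fun_prop)) ?_
  rintro ⟨M, k⟩ hM
  obtain ⟨c, hc, hc1, hc2⟩ := hopt M hM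
  refine ⟨c, hc, ?_⟩
  simp only [decide_eq_true_eq]
  rw [length_ddup, ← SimpleGraph.chromaticNumber_le_iff_colorable, ← hc2]
  exact Nat.cast_le

/-- At most three pairwise non-adjacent vertices. -/
theorem GG_indep {I : List (ℕ × ℕ × ℕ) × ℕ} (hI : Dist I.1) (s : Finset {x // x ∈ labs I})
    (hs : (GG I).IsIndepSet s) : s.card ≤ 3 := by
  classical
  by_contra hcon
  push Not at hcon
  obtain ⟨u, hu⟩ : s.Nonempty := Finset.card_pos.1 (by omega)
  have h1 := Finset.card_erase_of_mem hu
  obtain ⟨v, hv⟩ : (s.erase u).Nonempty := Finset.card_pos.1 (by omega)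
  have h2 := Finset.card_erase_of_mem hv
  obtain ⟨w, hw, w', hw', hww⟩ := Finset.one_lt_card.1
    (show 1 < ((s.erase u).erase v).card by omega)
  simp only [Finset.mem_erase] at hv hw hw'
  have key : ∀ a b : {x // x ∈ labs I}, a ≠ b → a ∈ s → b ∈ s → adjH I.1 a.1 b.1 = true := by
    intro a b hab ha hb
    exact GG_not_adj (hs ha hb hab) hab
  have := tri_unique hI (val_of_mem u.2) (val_of_mem v.2) (val_of_mem w.2) (val_of_mem w'.2)
    (key u v (Ne.symm hv.1) hu hv.2) (key u w (Ne.symm hw.2.1) hu hw.2.2)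
    (key v w (Ne.symm hw.1) hv.2 hw.2.2) (key u w' (Ne.symm hw'.2.1) hu hw'.2.2)
    (key v w' (Ne.symm hw'.1) hv.2 hw'.2.2)
  exact hww (Subtype.ext this)

/-- Hardness with the additional promise that there are no four pairwise non-adjacent vertices. -/
theorem hardPr_col3 : HardPr (fun J : List (List Bool) × ℕ => OddHoleFree (matGraph J.1) ∧
    ∀ s : Finset (Fin J.1.length), (matGraph J.1).IsIndepSet s → s.card ≤ 3)
    (fun J => (matGraph J.1).Colorable J.2) := by
  classical
  refine hardPr_X3C.trans poly_redG ?_ ?_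
  · intro I hI
    have hD : Dist I.1 := fun t ht => (hI.1 t ht).1
    rw [redG_eq hI]
    have e := matIso (labs I) (fun u v => !adjH I.1 u v) (labs_nodup I)
    refine ⟨(GG_oddHoleFree hD).of_iso e.symm, fun s hs => ?_⟩
    have h1 := GG_indep hD (s.map e.toEquiv.toEmbedding) (by
      intro a ha b hb hab h
      simp only [Finset.coe_map, Set.mem_image, Finset.mem_coe] at ha hb
      obtain ⟨a, ha, rfl⟩ := ha
      obtain ⟨b, hb, rfl⟩ := hb
      exact hs ha hb (fun h' => hab (by rw [h'])) (e.map_adj_iff.1 h))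
    rwa [Finset.card_map] at h1
  · intro I hI
    rw [redG_eq hI, X3C_iff_colorable hI]
    have e := matIso (labs I) (fun u v => !adjH I.1 u v) (labs_nodup I)
    exact ⟨fun h => h.of_hom e.toHom, fun h => h.of_hom e.symm.toHom⟩

end Pool.Agent.X248.OHF
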